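import Pool.Agent.MP_b5e119_nt.H62.Chain

namespace Pool.Agent.Results.MP_b5e119_nt.AlmostAll

theorem result :
    ∃ c : ℝ, 0 < c ∧ ∃ X₀ : ℕ, ∀ X : ℕ, X₀ ≤ X →
      (Set.ncard {N : ℕ | 3 ≤ N ∧ N ≤ X ∧ ∃ a : ℕ → ℤ,
          a 1 = (N : ℤ) - 2 ∧
          (∀ n : ℕ, 2 ≤ n →
            a n = a (n - 1) -
              ((Int.gcd (a (n - 1)) ((N : ℤ) - (-1 : ℤ) ^ n * ((N : ℤ) - (n : ℤ))) : ℕ) : ℤ)) ∧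
          ∃ n : ℕ, 2 ≤ n ∧ (n : ℝ) ≤ Real.exp (c * Real.log X ^ (1 / 3 : ℝ)) ∧
            (a n = 0 ∨ (a n : ℝ) < N - Real.exp (Real.log X ^ (2 / 3 : ℝ)))} : ℝ) ≤
        X * Real.exp (-(c * Real.log X ^ (1 / 3 : ℝ))) :=
  Pool.Agent.MP_b5e119_nt.H62.main

end Pool.Agent.Results.MP_b5e119_nt.AlmostAll
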