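import Pool.Agent.MP_b5e119_nt.G55.Main

open Finset

theorem Pool.Agent.MP_b5e119_nt.Old.liouvilleLValue :
    ∃ c : ℝ, 0 < c ∧ ∃ N₀ : ℕ, ∀ (N : ℕ) [NeZero N], N₀ ≤ N →
      ∀ e e' : ℤ, (e = 1 ∨ e = -1) → (e' = 1 ∨ e' = -1) → ∃ m : ℝ,
        (m = 1 ∨ ∃ χ : DirichletCharacter ℂ N, χ ≠ 1 ∧ χ ^ 2 = 1 ∧
          χ (-1) = -((e * e' : ℤ) : ℂ) ∧
          m = (N.totient : ℝ) / N * ‖DirichletCharacter.LFunction χ 1‖ * Real.log N) ∧
        c * m * N ≤ ((Icc 1 (N - 1)).filter fun a =>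
          ArithmeticFunction.liouville a = e ∧ ArithmeticFunction.liouville (N - a) = e').card := by
  obtain ⟨c, hc, N₀, h1⟩ := Pool.Agent.G55.tops
  refine ⟨c, hc, N₀, fun N _ hN e e' he he' => ?_⟩
  have e0 : ((Icc 1 (N - 1)).filter fun a =>
      ArithmeticFunction.liouville a = e ∧ ArithmeticFunction.liouville (N - a) = e').card =
      Pool.Agent.G60.cnt N e e' := by
    unfold Pool.Agent.G60.cnt
    congr 1
    refine filter_congr fun a ha => ?_
    rw [mem_Icc] at ha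
    rw [ArithmeticFunction.liouville_apply (by omega),
      ArithmeticFunction.liouville_apply (by omega)]
    rfl
  rw [e0]
  exact h1 N hN e e' he he'
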