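import Mathlib
import Pool.Agent.MP_b5e119_nt.Mg.H44_Main

namespace Pool.Agent.Results.MP_b5e119_nt.LogSquare

/-- Unconditional lower bound: `g_N ≥ c (log N)^2` for all `N ≥ 3`. -/
theorem result :
    ∃ c : ℝ, 0 < c ∧ ∀ N : ℕ, 3 ≤ N →
      ∀ a : ℕ → ℤ,
        a 1 = (N : ℤ) - 2 →
        (∀ n : ℕ, 2 ≤ n →
          a n = a (n - 1) -
            ((Int.gcd (a (n - 1)) ((N : ℤ) - (-1 : ℤ) ^ n * ((N : ℤ) - (n : ℤ))) : ℕ) : ℤ)) →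
        ∀ g : ℕ, IsLeast {n : ℕ | 2 ≤ n ∧ a n = 0} g →
          c * Real.log N ^ 2 ≤ (g : ℝ) :=
  ⟨1 / 10 ^ 11, by norm_num, fun _ hN _ h1 hrec _ hg =>
    Pool.Agent.MP_b5e119_nt.H44.main hN h1 hrec hg⟩

end Pool.Agent.Results.MP_b5e119_nt.LogSquare
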