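import Pool.Agent.MP_b5e119_nt.G94.EMain

open Finset

theorem Pool.Agent.MP_b5e119_nt.Old.primeLacunary :
    ∃ c : ℝ, 0 < c ∧ ∃ (p₀ : ℕ) (E : Set ℕ), (∀ p ∈ E, ∀ p' ∈ E, p < p' → p ^ 2 < p') ∧
      ∀ N p : ℕ, 0 < N → p.Prime → p₀ ≤ p → p ∣ N →
        ∀ e e' : ℤ, (e = 1 ∨ e = -1) → (e' = 1 ∨ e' = -1) →
          (((Icc 1 (N - 1)).filter fun a => ArithmeticFunction.liouville a = e ∧
            ArithmeticFunction.liouville (N - a) = e').card : ℝ) < c * p →
          p ∈ E ∧ (e = e' ↔ p % 4 = 3) := by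
  obtain ⟨c, p₀, E, hc, hE, h⟩ := Pool.Agent.G94.tope
  refine ⟨c, hc, p₀ + 3, E, hE, fun N p hN hp h0 hd e e' he he' hq => ?_⟩
  have e0 : ((Icc 1 (N - 1)).filter fun a =>
      ArithmeticFunction.liouville a = e ∧ ArithmeticFunction.liouville (N - a) = e').card =
      Pool.Agent.G60.cnt N e e' := by
    unfold Pool.Agent.G60.cnt
    congr 1
    refine filter_congr fun a ha => ?_
    rw [mem_Icc] at ha
    rw [ArithmeticFunction.liouville_apply (by omega),
      ArithmeticFunction.liouville_apply (by omega)]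
    rfl
  rw [e0] at hq
  obtain ⟨d, rfl⟩ := hd
  have hd : d ≠ 0 := by rintro rfl; simp at hN
  have : Fact p.Prime := ⟨hp⟩
  have hl := Pool.Agent.G60.lam_cases d
  have hm := Pool.Agent.G60.mon_row p d (Pool.Agent.G60.lam d * e) (Pool.Agent.G60.lam d * e')
    (Nat.pos_of_ne_zero hd)
  have hs : ∀ x : ℤ, Pool.Agent.G60.lam d * (Pool.Agent.G60.lam d * x) = x := fun x => by
    rcases hl with a | a <;> rw [a] <;> ring
  rw [hs, hs] at hm
  have k := mt (h p (by omega) (Pool.Agent.G60.lam d * e) (Pool.Agent.G60.lam d * e')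
    (by rcases hl with a | a <;> rcases he with b | b <;> rw [a, b] <;> norm_num)
    (by rcases hl with a | a <;> rcases he' with b | b <;> rw [a, b] <;> norm_num))
    (not_le.2 (lt_of_le_of_lt (by exact_mod_cast hm) hq))
  rw [not_or, not_not, mul_mul_mul_comm, mul_assoc, hs] at k
  refine ⟨k.1, ?_⟩
  have h2 : p ≠ 2 := by omega
  have ho := hp.eq_two_or_odd.resolve_left h2
  have e1 : Pool.Agent.G60.leg p (p - 1) = ZMod.χ₄ (p : ZMod 4) := by
    unfold Pool.Agent.G60.leg
    rw [← legendreSym.at_neg_one h2, legendreSym.mod p, legendreSym.mod p (-1)]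
    congr 1
    rw [Nat.cast_sub hp.one_le, Nat.cast_one, sub_eq_add_neg, Int.add_emod_left]
  have k2 := k.2
  rw [e1] at k2
  by_cases h4 : p % 4 = 1
  · rw [ZMod.χ₄_nat_one_mod_four h4] at k2
    rcases he with rfl | rfl <;> rcases he' with rfl | rfl <;> omega
  · rw [ZMod.χ₄_nat_three_mod_four (by omega)] at k2
    rcases he with rfl | rfl <;> rcases he' with rfl | rfl <;> omega
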